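import Mathlib
import Pool.Agent.H23.BoxDefs
import Pool.Agent.H23.BoxLowerMain
import Pool.Agent.H23.BoxUpper

set_option autoImplicit false

namespace Pool.Agent.Results.MP_5f7e36_co.LineTransversalNumber

open Pool.Agent.H23.Box

/-- The Helly number for line transversals to axis-parallel boxes in `ℝ^d` is exactly
`2^(d-1) (2d-1)`, for every `d ≥ 2`: this is the least `h` such that every finite family of boxes all
of whose subfamilies with at most `h` members have a line transversal has a line transversal. -/
theorem result (d : ℕ) (hd : 2 ≤ d) :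
    IsLeast {h : ℕ | HellyForLines d h} (2 ^ (d - 1) * (2 * d - 1)) := by
  obtain ⟨n, rfl⟩ : ∃ n, d = n + 1 := ⟨d - 1, by omega⟩
  have e : 2 ^ (n + 1 - 1) * (2 * (n + 1) - 1) = 2 ^ n * (2 * n + 1) := by
    congr 1
  rw [e]
  refine ⟨upper n, ?_⟩
  intro h hh
  by_contra hlt
  push Not at hlt
  exact lower n (by omega) h hlt hh

end Pool.Agent.Results.MP_5f7e36_co.LineTransversalNumber
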